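import Pool.Agent.Helper66.HK.Stmts

/-! Sticky Kakeya sets, core of the Hausdorff form: module LOW (lower bound on a window). -/

namespace Pool.Agent.Helper66.HK

open Finset Pool.Agent.Helper69.RK

/-- data processing: `P` is a function of `(X, G)` -/
theorem low_mi (h1 : ST_E1) (h2 : ST_E2) {Ω α ξ ρ γ : Type} [Fintype Ω] (μ : Ω → ℝ) (P : Ω → α)
    (X : Ω → ξ) (R : Ω → ρ) (G : Ω → γ) (nn : ∀ ω, 0 ≤ μ ω)
    (hP : Dep μ (fun ω => (X ω, G ω)) P) :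
    CH μ P G - CH μ P (fun ω => (R ω, G ω)) ≤ CH μ X G - CH μ X (fun ω => (R ω, G ω)) := by
  obtain ⟨h21, h22, _⟩ := h2
  have e1 := (h1 Ω α ξ γ μ P X G nn).2.1
  have e2 := (h1 Ω α ξ (ρ × γ) μ P X (fun ω => (R ω, G ω)) nn).2.1
  have e3 : CH μ (fun ω => (P ω, X ω)) G ≤ CH μ X G := by
    refine h21 Ω (α × ξ) ξ γ μ (fun ω => (P ω, X ω)) X G nn ?_
    intro ω ω' hω hω' he
    have hX : X ω = X ω' := congrArg Prod.fst he
    have := hP ω ω' hω hω' he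
    simp only [Prod.mk.injEq]
    exact ⟨this, hX⟩
  have e4 : CH μ X (fun ω => (R ω, G ω)) ≤ CH μ (fun ω => (P ω, X ω)) (fun ω => (R ω, G ω)) := by
    refine h21 Ω ξ (α × ξ) (ρ × γ) μ X (fun ω => (P ω, X ω)) (fun ω => (R ω, G ω)) nn ?_
    intro ω ω' hω hω' he
    have h := congrArg Prod.fst he
    exact congrArg Prod.snd h
  have e5 : CH μ X (fun ω => (P ω, (R ω, G ω))) ≤ CH μ X (fun ω => (P ω, G ω)) := by
    refine h22 Ω ξ (α × γ) (α × (ρ × γ)) μ X (fun ω => (P ω, G ω)) (fun ω => (P ω, (R ω, G ω))) nn ?_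
    intro ω ω' hω hω' he
    simp only [Prod.mk.injEq] at he ⊢
    exact ⟨he.1, he.2.2⟩
  linarith

/-- conditioning on a function `W` of `X` does not increase the mutual information of `X` and `R` -/
theorem low_cond (h1 : ST_E1) (h2 : ST_E2) {Ω α ξ ρ ζ : Type} [Fintype Ω] (μ : Ω → ℝ) (W : Ω → α)
    (X : Ω → ξ) (R : Ω → ρ) (Z : Ω → ζ) (nn : ∀ ω, 0 ≤ μ ω) (hW : Dep μ X W) :
    CH μ X (fun ω => (W ω, Z ω)) - CH μ X (fun ω => (R ω, (W ω, Z ω))) ≤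
      CH μ X Z - CH μ X (fun ω => (R ω, Z ω)) := by
  obtain ⟨h21, h22, _⟩ := h2
  have e1 := (h1 Ω α ξ ζ μ W X Z nn).2.1
  have e2 := (h1 Ω α ξ (ρ × ζ) μ W X (fun ω => (R ω, Z ω)) nn).2.1
  have e3 : CH μ (fun ω => (W ω, X ω)) Z ≤ CH μ X Z := by
    refine h21 Ω (α × ξ) ξ ζ μ (fun ω => (W ω, X ω)) X Z nn ?_
    intro ω ω' hω hω' he
    have hX : X ω = X ω' := congrArg Prod.fst he
    have := hW ω ω' hω hω' hX
    simp only [Prod.mk.injEq]
    exact ⟨this, hX⟩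
  have e4 : CH μ X (fun ω => (R ω, Z ω)) ≤ CH μ (fun ω => (W ω, X ω)) (fun ω => (R ω, Z ω)) := by
    refine h21 Ω ξ (α × ξ) (ρ × ζ) μ X (fun ω => (W ω, X ω)) (fun ω => (R ω, Z ω)) nn ?_
    intro ω ω' hω hω' he
    have h := congrArg Prod.fst he
    exact congrArg Prod.snd h
  have e5 := (h1 Ω α ρ ζ μ W R Z nn).2.2
  have e6 : CH μ X (fun ω => (W ω, (R ω, Z ω))) ≤ CH μ X (fun ω => (R ω, (W ω, Z ω))) := by
    refine h22 Ω ξ (ρ × (α × ζ)) (α × (ρ × ζ)) μ X (fun ω => (R ω, (W ω, Z ω)))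
      (fun ω => (W ω, (R ω, Z ω))) nn ?_
    intro ω ω' hω hω' he
    simp only [Prod.mk.injEq] at he ⊢
    exact ⟨he.2.1, he.1, he.2.2⟩
  linarith

theorem low_mono {m n : ℕ} {η η' : ℝ} (hη : η ≤ η') {Ω ζ : Type} [Fintype Ω] {μ : Ω → ℝ} {Z : Ω → ζ}
    {a x : Ω → Fin m → ℝ} {t : Ω → ℝ} (h : HS m n η μ Z a x t) : HS m n η' μ Z a x t := by
  have hn : η * n ≤ η' * n := mul_le_mul_of_nonneg_right hη (Nat.cast_nonneg n)
  exact { nn := h.nn, ms := h.ms, ab := h.ab, xb := h.xb, tb := h.tb,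
          st := fun k hk => (h.st k hk).trans hn,
          h1 := le_trans (by linarith) h.h1,
          h2 := h.h2.trans hn }

theorem st_LOW (hF : ST_FLO) (h1 : ST_E1) (h2 : ST_E2) : ST_LOW := by
  intro m M γ hM hW ε hε
  have hM0 : (0 : ℝ) < M := by exact_mod_cast hM
  obtain ⟨η1, hη1, n1, hWin⟩ := hW (ε / 2) (1 / (2 * M)) (by linarith) (by positivity)
  refine ⟨min η1 (ε / 4), lt_min hη1 (by linarith), max n1 (max (2 * M) (⌈4 * (m : ℝ) / ε⌉₊ + 1)), ?_⟩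
  intro n hn Ω ζ ρ _ μ Z R a x t Λ hS hRt hRL hI i hi
  have hn1 : n1 ≤ n := (le_max_left _ _).trans hn
  have hn2 : 2 * M ≤ n := ((le_max_left _ _).trans (le_max_right _ _)).trans hn
  have hn3 : ⌈4 * (m : ℝ) / ε⌉₊ + 1 ≤ n := ((le_max_right _ _).trans (le_max_right _ _)).trans hn
  have hS1 : HS m n η1 μ Z a x t := low_mono (min_le_left _ _) hS
  have hJ : i * (n / M) + n / M ≤ n := by
    have e1 : (i + 1) * (n / M) ≤ M * (n / M) := Nat.mul_le_mul_right _ hi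
    have e2 : M * (n / M) ≤ n := Nat.mul_div_le n M
    calc i * (n / M) + n / M = (i + 1) * (n / M) := by ring
      _ ≤ n := e1.trans e2
  have hw : 1 / (2 * (M : ℝ)) * n ≤ ((n / M : ℕ) : ℝ) := by
    have e1 : n < M * (n / M + 1) := by
      have := Nat.lt_mul_div_succ n hM
      exact this
    have e2 : (n : ℝ) < M * (((n / M : ℕ) : ℝ) + 1) := by exact_mod_cast e1
    have e3 : (2 : ℝ) * M ≤ n := by exact_mod_cast hn2
    rw [one_div, inv_mul_le_iff₀ (by positivity)]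
    nlinarith
  have hw2 : ((n / M : ℕ) : ℝ) ≤ n := by exact_mod_cast Nat.div_le_self n M
  have key := hWin n hn1 Ω ζ μ Z a x t hS1 (i * (n / M)) (n / M) hJ hw
  have hf := (hF m n (i * (n / M)) (n / M) Ω ρ μ R a x t t Λ Λ hS.nn hS.ms hJ hS.ab hS.xb
    (by
      intro ω ω' hω hω' he
      have := hRt ω ω' hω hω' he
      simp only [this])
    (by intro ω _; simp) hS.tb).2.2.1 (ρ × (((Fin m → ℤ) × (Fin m → ℤ)) × ζ))
    (fun ω => (R ω, (xi (i * (n / M)) (a ω) (x ω), Z ω)))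
    (by
      intro ω ω' hω hω' he
      have hR : R ω = R ω' := congrArg Prod.fst he
      have := hRL ω ω' hω hω' hR
      simp only [this])
  have hidx : (i + 1) * (n / M) = i * (n / M) + n / M := by ring
  rw [hidx]
  have hf2 := (abs_le.1 hf).1
  -- the point is a function of the line and the height
  have g1 := low_mi h1 h2 μ (fun ω => cel (i * (n / M) + n / M) (Yt (t ω) (a ω) (x ω)))
    (fun ω => (a ω, x ω)) R (fun ω => (t ω, xi (i * (n / M)) (a ω) (x ω), Z ω)) hS.nn (by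
      intro ω ω' hω hω' he
      simp only [Prod.mk.injEq] at he
      obtain ⟨⟨ea, ex⟩, et, _⟩ := he
      simp only [ea, ex, et])
  have g2 := low_cond h1 h2 μ (fun ω => xi (i * (n / M)) (a ω) (x ω)) (fun ω => (a ω, x ω)) R Z
    hS.nn (by
      intro ω ω' hω hω' he
      simp only [Prod.mk.injEq] at he
      simp only [he.1, he.2])
  obtain ⟨_, h22, _⟩ := h2
  have g3 : CH μ (fun ω => (a ω, x ω)) (fun ω => (t ω, xi (i * (n / M)) (a ω) (x ω), Z ω)) ≤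
      CH μ (fun ω => (a ω, x ω)) (fun ω => (xi (i * (n / M)) (a ω) (x ω), Z ω)) := by
    refine h22 Ω _ _ _ μ _ _ _ hS.nn ?_
    intro ω ω' hω hω' he
    exact congrArg Prod.snd he
  have g4 : CH μ (fun ω => (a ω, x ω)) (fun ω => (R ω, (xi (i * (n / M)) (a ω) (x ω), Z ω))) ≤
      CH μ (fun ω => (a ω, x ω)) (fun ω => (R ω, (t ω, xi (i * (n / M)) (a ω) (x ω), Z ω))) := by
    refine h22 Ω _ _ _ μ _ _ _ hS.nn ?_
    intro ω ω' hω hω' he
    simp only [Prod.mk.injEq] at he ⊢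
    exact ⟨he.1, hRt ω ω' hω hω' he.1, he.2.1, he.2.2⟩
  have g5 : CH μ (fun ω => cel (i * (n / M) + n / M) (Yt (t ω) (a ω) (x ω)))
        (fun ω => (R ω, (t ω, xi (i * (n / M)) (a ω) (x ω), Z ω))) ≤
      CH μ (fun ω => cel (i * (n / M) + n / M) (Yt (t ω) (a ω) (x ω)))
        (fun ω => (R ω, (xi (i * (n / M)) (a ω) (x ω), Z ω))) := by
    refine h22 Ω _ _ _ μ _ _ _ hS.nn ?_
    intro ω ω' hω hω' he
    simp only [Prod.mk.injEq] at he ⊢
    exact ⟨he.1, he.2.2.1, he.2.2.2⟩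
  have hI2 : CH μ (fun ω => (a ω, x ω)) Z - CH μ (fun ω => (a ω, x ω)) (fun ω => (R ω, Z ω)) ≤
      ε / 4 * n :=
    le_trans hI (mul_le_mul_of_nonneg_right (min_le_right _ _) (Nat.cast_nonneg n))
  have hm : (m : ℝ) ≤ ε / 4 * n := by
    have e1 : 4 * (m : ℝ) / ε ≤ ⌈4 * (m : ℝ) / ε⌉₊ := Nat.le_ceil _
    have e2 : ((⌈4 * (m : ℝ) / ε⌉₊ + 1 : ℕ) : ℝ) ≤ n := by exact_mod_cast hn3
    push_cast at e2
    have e3 : 4 * (m : ℝ) / ε ≤ n := by linarith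
    rw [div_le_iff₀ hε] at e3
    linarith
  have hw3 : ε / 2 * ((n / M : ℕ) : ℝ) ≤ ε / 2 * n := mul_le_mul_of_nonneg_left hw2 (by linarith)
  linarith

end Pool.Agent.Helper66.HK
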